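import Pool.Agent.Lib.HW68.Bridge

/-! A manifold with a Hermitian metric of non-positive holomorphic sectional curvature receives no
non-constant holomorphic map from the projective line. -/

open scoped Classical Topology ContDiff ComplexOrder Matrix Manifold
open Set Complex Filter

noncomputable section

namespace Pool.Agent.Lib.PN68

open Pool.Agent.Lib.SV (E)
open Pool.Agent.Lib.HS32 Pool.Agent.Lib.GH Pool.Agent.Lib.HS.BBR Pool.Agent.Lib.RB.R32
open Pool.Agent.Lib.HW68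

/-- A smooth subharmonic function that tends to zero at infinity is non-positive. -/
theorem sub_le {τ : E 1 → ℝ} (hs : ∀ z, ContDiffAt ℝ ∞ τ z)
    (hl : ∀ z, 0 ≤ (hess (fun w => (τ w : ℂ)) z 0 0).re)
    (h0 : Tendsto τ (cocompact (E 1)) (𝓝 0)) (z : E 1) : τ z ≤ 0 := by
  by_contra hz
  rw [not_le] at hz
  obtain ⟨K, hK, hK'⟩ := mem_cocompact.1 (h0.eventually (gt_mem_nhds (half_pos hz)))
  obtain ⟨R, hR, hKR⟩ := (hK.insert z).isBounded.subset_ball_lt 0 0
  let q : E 1 → ℂ := fun w => star (w 0) * w 0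
  have hq : ∀ w, ContDiffAt ℝ ∞ q w := fun w =>
    (cd_star (contDiffAt_apply ℝ ℂ 0 w)).mul (contDiffAt_apply ℝ ℂ 0 w)
  have hq2 : ∀ w, q w = ((‖w 0‖ ^ 2 : ℝ) : ℂ) := fun w => by
    simp only [q, Complex.star_def, Complex.conj_mul', ofReal_pow]
  set δ := τ z / (4 * R ^ 2) with hδ
  have hδ0 : 0 < δ := by positivity
  let g : E 1 → ℝ := fun w => τ w + δ * (q w).re
  have hg : ∀ w, ContDiffAt ℝ ∞ g w := fun w =>
    (hs w).add (contDiffAt_const.mul (reCLM.contDiff.contDiffAt.comp w (hq w)))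
  obtain ⟨y, hy, hm⟩ := (isCompact_closedBall (0 : E 1) R).exists_isMaxOn
    (Metric.nonempty_closedBall.2 hR.le) fun w _ => (hg w).continuousAt.continuousWithinAt
  have hzb := hKR (mem_insert z K)
  have h1 : g z ≤ g y := hm (Metric.ball_subset_closedBall hzb)
  have hyb : y ∈ Metric.ball (0 : E 1) R := by
    by_contra hn
    have h2 : τ y < τ z / 2 := hK' fun hk => hn (hKR (mem_insert_of_mem z hk))
    have h3 : ‖y 0‖ ≤ R := (norm_le_pi_norm y 0).trans (mem_closedBall_zero_iff.1 hy)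
    have h4 : δ * ‖y 0‖ ^ 2 ≤ δ * R ^ 2 := by gcongr
    have h5 : δ * R ^ 2 = τ z / 4 := by
      rw [hδ]
      field_simp
    have h6 : 0 ≤ δ * ‖z 0‖ ^ 2 := by positivity
    simp only [g, hq2, ofReal_re] at h1
    linarith
  have h2 := ((mMAXE 1 g y (hg y) (hm.isLocalMax (mem_of_superset (Metric.isOpen_ball.mem_nhds hyb)
    Metric.ball_subset_closedBall))).1.diag_nonneg (i := 0))
  have e : (fun w => (g w : ℂ)) = fun w => (τ w : ℂ) + (δ : ℂ) * q w := funext fun w => by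
    simp only [g, hq2, ofReal_re, ofReal_add, ofReal_mul]
  have hp : ∀ w : E 1, DifferentiableAt ℂ (fun w : E 1 => w 0) w := fun w =>
    differentiableAt_apply 0 w
  have e2 : hess q y 0 0 = 1 := by
    have h3 := d21_triple (a := fun _ => 1) (z := y) (p := fun w : E 1 => w 0)
      (s := fun _ => 1) (q := fun w : E 1 => w 0) (Eventually.of_forall hp) contDiffAt_const
      (Eventually.of_forall hp)
    have h4 : d1 (fun _ => 1) (fun _ : E 1 => (1 : ℂ)) = fun _ => 0 := funext fun w => by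
      rw [(d1_hol (differentiableAt_const _)).1]
      simp
    have h5 : d1 (fun _ => 1) (fun w : E 1 => w 0) y = 1 := by
      rw [(d1_hol (hp y)).1, (hasFDerivAt_apply (𝕜 := ℂ) 0 y).fderiv]
      rfl
    simp only [mul_one] at h3
    rw [d21_eq (hq y), h4, h5, (d1_hol (differentiableAt_const _)).2,
      (d1_hol (differentiableAt_const _)).2] at h3
    simpa [hess] using h3
  rw [e, hess_add (cd_ofReal (hs y)) (contDiffAt_const.mul (hq y)), hess_const_mul _ (hq y)] at h2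
  have h3 := (Complex.le_def.1 h2).1
  simp only [Matrix.neg_apply, Matrix.add_apply, Matrix.smul_apply, e2, smul_eq_mul, mul_one,
    neg_re, add_re, ofReal_re, zero_re] at h3
  linarith [hl y]

variable {N : ℕ} {M : Mf N} {h : M.Fam (Mat N)}

/-- A holomorphic map from the line. -/
def HolE (M : Mf N) (φ : E 1 → M.X) : Prop :=
  Continuous φ ∧ ∀ e ∈ M.C, ∀ z, φ z ∈ e.source → DifferentiableAt ℂ (e ∘ φ) z

/-- The pull-back of the metric by a map from the line. -/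
def pb1 (φ : E 1 → M.X) (h : M.Fam (Mat N)) (z : E 1) : Mat 1 :=
  (jr (M.ch (φ z) ∘ φ) z)ᴴ * M.ev h (φ z) * jr (M.ch (φ z) ∘ φ) z

variable {φ ψ : E 1 → M.X}

theorem pb1_eq (hh : M.Met h) (hφ : HolE M φ) {c : M.Ch} (hc : c ∈ M.C) {z : E 1}
    (hz : φ z ∈ c.source) :
    pb1 φ h z = (jr (c ∘ φ) z)ᴴ * h c ((c ∘ φ) z) * jr (c ∘ φ) z := by
  have e1 : jr (M.ch (φ z) ∘ φ) z = M.J (M.ch (φ z)) c (φ z) * jr (c ∘ φ) z := by
    refine jr_comp (φ := M.ch (φ z) ∘ c.symm) (ψ := c ∘ φ) ?_ (hφ.2 c hc z hz) ?_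
    · have h0 : c.symm (c (φ z)) ∈ (M.ch (φ z)).source := by
        rw [c.left_inv hz]
        exact Mf.mem_ch _
      exact (M.hol _ (Mf.ch_mem _) c hc _ ⟨c.map_source hz, h0⟩).differentiableAt
        ((c.continuousOn_symm.isOpen_inter_preimage c.open_target
          (M.ch (φ z)).open_source).mem_nhds ⟨c.map_source hz, h0⟩)
    · filter_upwards [hφ.1.continuousAt.eventually (c.open_source.mem_nhds hz)] with w hw
      show M.ch (φ z) (φ w) = M.ch (φ z) (c.symm (c (φ w)))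
      rw [c.left_inv hw]
  rw [pb1, e1, Function.comp_apply, hh.cmp _ (Mf.ch_mem (φ z)) c hc _ (Mf.mem_ch _) hz]
  simp only [Matrix.conjTranspose_mul, Matrix.mul_assoc]
  rfl

theorem pb1_loc (hh : M.Met h) (hφ : HolE M φ) (z : E 1) :
    HolN (M.ch (φ z) ∘ φ) z ∧ HS68.Loc (h (M.ch (φ z))) ((M.ch (φ z) ∘ φ) z) ∧
      ∀ᶠ w in 𝓝 z, pb1 φ h w = (jr (M.ch (φ z) ∘ φ) w)ᴴ * h (M.ch (φ z)) ((M.ch (φ z) ∘ φ) w) *
        jr (M.ch (φ z) ∘ φ) w := by
  have h1 := hφ.1.continuousAt.eventually ((M.ch (φ z)).open_source.mem_nhds (Mf.mem_ch (φ z)))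
  exact ⟨h1.mono fun w hw => hφ.2 _ (Mf.ch_mem _) w hw,
    HS68.met_loc hh (Mf.ch_mem _) (Mf.ch_tgt _), h1.mono fun w hw => pb1_eq hh hφ (Mf.ch_mem _) hw⟩

theorem const_of (hh : M.Met h) (hφ : HolE M φ) (h0 : ∀ z, (pb1 φ h z 0 0).re ≤ 0) (z : E 1) :
    φ z = φ 0 := by
  refine IsLocallyConstant.apply_eq_of_preconnectedSpace
    ((IsLocallyConstant.iff_eventually_eq φ).2 fun y => ?_) z 0
  let c := M.ch (φ y)
  have hc : φ y ∈ c.source := Mf.mem_ch _
  obtain ⟨r, hr, hb⟩ := Metric.isOpen_iff.1 (c.open_source.preimage hφ.1) y hc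
  have hz : ∀ w ∈ Metric.ball y r, fderiv ℂ (c ∘ φ) w = 0 := fun w hw => by
    have e := pb1_eq hh hφ (Mf.ch_mem (φ y)) (hb hw)
    have p := hh.pos _ (Mf.ch_mem (φ y)) _ (c.map_source (hb hw))
    have v0 : jr (c ∘ φ) w *ᵥ Pi.single 0 1 = 0 := by
      by_contra hn
      have h1 := (Complex.lt_def.1 (p.dotProduct_mulVec_pos hn)).1
      rw [← quad_pb] at h1
      erw [← e] at h1
      have h2 := h0 w
      simp [dotProduct, Matrix.mulVec] at h1
      linarith
    rw [jr_mulVec] at v0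
    ext1 v
    rw [pi_eq_sum_univ' v, map_sum]
    simp [v0]
  filter_upwards [Metric.ball_mem_nhds y hr] with w hw
  exact c.injOn (hb hw) hc (Metric.isOpen_ball.is_const_of_fderiv_eq_zero
    (convex_ball y r).isPreconnected
    (fun u hu => (hφ.2 _ (Mf.ch_mem _) u (hb hu)).differentiableWithinAt) hz hw
    (Metric.mem_ball_self hr))

theorem noP1E (hh : M.Met h) (hc : M.Hsc h) (hφ : HolE M φ) (hψ : HolE M ψ)
    (e : ∀ z, z 0 ≠ 0 → φ z = ψ fun _ => (z 0)⁻¹) (z : E 1) : φ z = φ 0 := by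
  have sm : ∀ {φ : E 1 → M.X}, HolE M φ → ∀ z, SmM (pb1 φ h) z := fun hφ z =>
    let ⟨h1, h2, h3⟩ := pb1_loc hh hφ z
    sm_pb h1 h2.sm h3
  have re : ∀ w, (((pb1 φ h w 0 0).re : ℝ) : ℂ) = pb1 φ h w 0 0 := fun w =>
    ((pb1_loc hh hφ w).2.1.pos.posSemidef.conjTranspose_mul_mul_same _).1.coe_re_apply_self 0
  refine const_of hh hφ (sub_le (fun w => reCLM.contDiff.contDiffAt.comp w (sm hφ w 0 0))
    (fun w => ?_) ?_) z
  · obtain ⟨h1, h2, h3⟩ := pb1_loc hh hφ w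
    have h4 := disc_pb (κ := 0) h1 h2.sm h3 (fun a b => by
      have h5 := dsc_ge h2 a b
      have h6 := hc _ (Mf.ch_mem (φ w)) _ (Mf.ch_tgt (φ w)) a
      rw [zero_mul]
      exact (neg_nonneg.2 h6).trans h5) (fun _ => 1) 0
    simp only [re]
    simp [dsc, dotProduct, Matrix.mulVec, dM, dMb] at h4
    exact h4
  · let ι : E 1 → E 1 := fun w _ => (w 0)⁻¹
    have hn : Tendsto (fun w : E 1 => w 0) (cocompact (E 1)) (Bornology.cobounded ℂ) := by
      rw [← Metric.cobounded_eq_cocompact, ← tendsto_norm_atTop_iff_cobounded]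
      refine (tendsto_norm_cobounded_atTop (E := E 1)).congr fun w => ?_
      simp [Pi.norm_def]
    have hi : Tendsto (fun w : E 1 => (w 0)⁻¹) (cocompact (E 1)) (𝓝 0) :=
      tendsto_inv₀_cobounded.comp hn
    have hι : Tendsto ι (cocompact (E 1)) (𝓝 0) := tendsto_pi_nhds.2 fun _ => hi
    have h1 := (((hi.pow 2).star.mul ((sm hψ 0 0 0).continuousAt.tendsto.comp hι)).mul (hi.pow 2))
    have h2 := (continuous_re.tendsto _).comp h1
    simp only [ne_eq, OfNat.ofNat_ne_zero, not_false_eq_true, zero_pow, mul_zero, zero_re] at h2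
    refine h2.congr' ?_
    filter_upwards [hn.eventually (Bornology.eventually_ne_cobounded 0)] with w hw
    have hd : HasFDerivAt ι (ContinuousLinearMap.pi fun _ : Fin 1 => (-((w 0)⁻¹ ^ 2)) •
        ContinuousLinearMap.proj (R := ℂ) (φ := fun _ : Fin 1 => ℂ) 0) w :=
      hasFDerivAt_pi.2 fun _ => by
        have := (hasDerivAt_inv hw).comp_hasFDerivAt w (hasFDerivAt_apply (𝕜 := ℂ) 0 w)
        rw [inv_pow]
        exact this
    have e1 : jr (M.ch (φ w) ∘ φ) w = jr (M.ch (ψ (ι w)) ∘ ψ) (ι w) * jr ι w := by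
      refine jr_comp (hψ.2 _ (Mf.ch_mem _) _ (Mf.mem_ch _)) hd.differentiableAt ?_
      filter_upwards [(continuous_apply 0).continuousAt.eventually_ne hw] with u hu
      show M.ch (φ w) (φ u) = _
      rw [e w hw, e u hu]
      rfl
    have e2 : pb1 φ h w = (jr ι w)ᴴ * pb1 ψ h (ι w) * jr ι w := by
      rw [pb1, pb1, e1, e w hw]
      simp only [Matrix.conjTranspose_mul, Matrix.mul_assoc]
      rfl
    have e3 : jr ι w 0 0 = -((w 0)⁻¹ ^ 2) := by
      simp [jr, hd.fderiv]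
    simp [e2, Matrix.mul_apply, e3]

/-- No rational curves. -/
theorem noP1 {φ ψ : ℂ → M.X} (hh : M.Met h) (hc : M.Hsc h) (cφ : Continuous φ)
    (hφ : ∀ e ∈ M.C, ∀ t, φ t ∈ e.source → DifferentiableAt ℂ (e ∘ φ) t) (cψ : Continuous ψ)
    (hψ : ∀ e ∈ M.C, ∀ t, ψ t ∈ e.source → DifferentiableAt ℂ (e ∘ ψ) t)
    (e : ∀ t, t ≠ 0 → ψ t = φ t⁻¹) (t : ℂ) : φ t = φ 0 :=
  noP1E (φ := fun z => φ (z 0)) (ψ := fun z => ψ (z 0)) hh hc
    ⟨cφ.comp (continuous_apply 0), fun c hc z hz =>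
      DifferentiableAt.comp (g := c ∘ φ) z (hφ c hc _ hz) (differentiableAt_apply (𝕜 := ℂ) 0 z)⟩
    ⟨cψ.comp (continuous_apply 0), fun c hc z hz =>
      DifferentiableAt.comp (g := c ∘ ψ) z (hψ c hc _ hz) (differentiableAt_apply (𝕜 := ℂ) 0 z)⟩
    (fun z hz => by rw [e _ (inv_ne_zero hz), inv_inv]) fun _ => t

end Pool.Agent.Lib.PN68
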