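import Pool.Agent.Lib.UR.MDefs

/-! A rational curve on a projective zero set, as two polynomial maps without zeros. -/

open Polynomial Filter
open scoped Topology

noncomputable section

namespace Pool.Agent.Lib.PN68

open Pool.Agent.Lib.UR.M Pool.Agent.Lib.MP_7fcda1_ag

variable {ι Λ : Type} [Fintype ι]

omit [Fintype ι] in
theorem ev_aeval (Q : ι → ℂ[X]) (g : MvPolynomial ι ℂ) (t : ℂ) :
    (MvPolynomial.aeval Q g).eval t = MvPolynomial.aeval (fun j => (Q j).eval t) g := by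
  have := MvPolynomial.comp_aeval_apply (φ := Polynomial.aeval (R := ℂ) t) (f := Q) g
  simpa only [coe_aeval_eq_eval] using this

theorem par {G : Λ → MvPolynomial ι ℂ} {e : Λ → ℕ} (hG : ∀ l, (G l).IsHomogeneous (e l))
    {x : ι → ℂ} {D : ℕ} (h : RatCurve G x D) : ∃ γ δ : ℂ → ι → ℂ,
      Differentiable ℂ γ ∧ Differentiable ℂ δ ∧ (∀ t, γ t ≠ 0) ∧ (∀ t, δ t ≠ 0) ∧
      (∀ t l, MvPolynomial.aeval (γ t) (G l) = 0) ∧ (∀ t l, MvPolynomial.aeval (δ t) (G l) = 0) ∧
      (∀ t, t ≠ 0 → ∃ c : ℂ, δ t = c • γ t⁻¹) ∧ ∃ t, ∀ c : ℂ, γ t ≠ c • γ 0 := by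
  classical
  obtain ⟨P, -, h1, h2, j, j', h3⟩ := h
  obtain ⟨Q, q1, q2⟩ := Finset.extract_gcd P ⟨j, Finset.mem_univ j⟩
  set d := Finset.univ.gcd P
  have eP : P = d • Q := funext fun i => q1 i (Finset.mem_univ i)
  have d0 : d ≠ 0 := fun h0 => h3 (by simp [eP, h0])
  have hQ : ∀ l, MvPolynomial.aeval Q (G l) = 0 := fun l => by
    have := h1 l
    rw [eP, plc1_aeval_smul (hG l)] at this
    exact (mul_eq_zero.1 this).resolve_left (pow_ne_zero _ d0)
  have n0 : ∀ t, (fun i => (Q i).eval t) ≠ 0 := fun t h0 => by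
    have : X - C t ∣ Finset.univ.gcd Q :=
      Finset.dvd_gcd fun i _ => dvd_iff_isRoot.2 (congrFun h0 i)
    rw [q2] at this
    exact not_isUnit_X_sub_C t (isUnit_of_dvd_one this)
  obtain ⟨m, hm0, hm⟩ := (Finset.univ.filter fun i => Q i ≠ 0).exists_max_image
    (fun i => (Q i).natDegree) (by
      obtain ⟨i, hi⟩ := Function.ne_iff.1 (n0 0)
      exact ⟨i, Finset.mem_filter.2 ⟨Finset.mem_univ i, fun h0 => hi (by simp [h0])⟩⟩)
  set N := (Q m).natDegree
  have hN : ∀ i, (Q i).natDegree ≤ N := fun i => by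
    by_cases h0 : Q i = 0
    · simp [h0]
    · exact hm i (Finset.mem_filter.2 ⟨Finset.mem_univ i, h0⟩)
  have eR : ∀ t : ℂ, t ≠ 0 → (fun i => (reflect N (Q i)).eval t) =
      t ^ N • fun i => (Q i).eval t⁻¹ := fun t ht => funext fun i => by
    have := invertibleOfNonzero (inv_ne_zero ht)
    have h4 := eval₂_reflect_mul_pow (RingHom.id ℂ) t⁻¹ N (Q i) (hN i)
    rw [invOf_eq_inv, inv_inv] at h4
    show eval t _ = t ^ N * eval₂ (RingHom.id ℂ) t⁻¹ (Q i)
    rw [← h4, mul_left_comm, ← mul_pow, mul_inv_cancel₀ ht, one_pow, mul_one]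
    rfl
  have zQ : ∀ t l, MvPolynomial.aeval (fun i => (Q i).eval t) (G l) = 0 := fun t l => by
    rw [← ev_aeval, hQ, eval_zero]
  refine ⟨fun t i => (Q i).eval t, fun t i => (reflect N (Q i)).eval t,
    differentiable_pi.2 fun i => (Q i).differentiable,
    differentiable_pi.2 fun i => (reflect N (Q i)).differentiable, n0, fun t => ?_, zQ,
    fun t l => ?_, fun t ht => ⟨_, eR t ht⟩, ?_⟩
  · by_cases ht : t = 0
    · refine fun h0 => leadingCoeff_ne_zero.2 (Finset.mem_filter.1 hm0).2 ?_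
      have h4 : (reflect N (Q m)).eval t = 0 := congrFun h0 m
      rwa [ht, ← coeff_zero_eq_eval_zero, coeff_reflect, revAt_zero] at h4
    · exact (eR t ht).trans_ne (smul_ne_zero (pow_ne_zero _ ht) (n0 _))
  · have h4 : MvPolynomial.aeval (fun i => reflect N (Q i)) (G l) = 0 :=
      eq_zero_of_infinite_isRoot _ ((Set.infinite_of_finite_compl (s := {t : ℂ | t ≠ 0})
        (by simp)).mono fun t ht => by
          show eval t _ = 0
          rw [ev_aeval, eR t ht, plc1_aeval_smul (hG l), zQ, mul_zero])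
    rw [← ev_aeval, h4, eval_zero]
  · by_contra hn
    refine h3 (Polynomial.funext fun t => ?_)
    simp only [not_exists, not_forall, ne_eq, not_not] at hn
    obtain ⟨c, hc⟩ := hn t
    have h4 : ∀ i, (Q i).eval t = c * (Q i).eval 0 := congrFun hc
    simp only [← h2, eP, coeff_zero_eq_eval_zero, Pi.smul_apply, smul_eq_mul, eval_mul, eval_C]
    rw [h4 j, h4 j']
    ring

end Pool.Agent.Lib.PN68
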